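import Pool.Agent.Helper66_D2.Stmts
import Pool.Agent.Helper94_D1.D1r

/-! # Squad PP, part D2, module D2R: the relative theorem from CCD and CLD -/

set_option autoImplicit false

open scoped BigOperators

noncomputable section

namespace Pool.Agent.PP.CD2.H94

open Pool.Agent.Helper51_AWC Pool.Agent.Helper79_WRA Pool.Agent.PP Pool.Agent.PP.H46
  Pool.Agent.PP.H66 Pool.Agent.PP.D1H94

theorem cyc_sub {G : Type} [Group G] {T : Subgroup G} (Q : Subgroup T)
    (h : IsCyclic (Q.map T.subtype)) : IsCyclic Q :=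
  (Q.equivMapOfInjective T.subtype T.subtype_injective).isCyclic.2 h

/-- the stable case -/
theorem stable_case (hccd : CcdStmt) (hcld : CldStmt) (ℓ : ℕ) [Fact ℓ.Prime] (F : Type) [Field F]
    (hF : GoodF ℓ F) (G : Type) [Group G] [Finite G] (N : Subgroup G) (hN : N.Normal) (b e : G → F)
    (hbc : IsCl b) (hb0 : ∀ x, x ∉ N → b x = 0) (hb : IsBlk (fun t : N => b t)) (he : IsIdem e)
    (hp : Pos ℓ e N) (heb : mulF e b = e)
    (hQ : ∀ Q : Subgroup G, Q ≤ N → IsPGroup ℓ Q → br Q b ≠ 0 → IsCyclic Q) :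
    YY ℓ N e = 0 := by
  by_cases hd : DZ ℓ (fun t : N => b t)
  · have h1 : stabF (ext0 N (fun t : N => b t)) = ⊤ := by
      rw [ext0_restr hb0, eq_top_iff]
      intro g _ x
      exact hbc x g
    have h2 := (Pool.Agent.AWR.H39.ps3 ℓ F hF G N hN (fun t : N => b t) hb h1 e he (by
      rw [ext0_restr hb0]
      exact heb)).2 hd hp
    rw [h2]
    exact YY_zero hF N hN
  · obtain ⟨n, P, y₁, w, hD, hB⟩ := hcld ℓ F hF G N hN b hbc hb0 hb hd hQ
    exact hccd ℓ F hF G n N P y₁ b w hD hB e he heb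

/-- D2R -/
theorem d2r (hccd : CcdStmt) (hcld : CldStmt) : D2rStmt := by
  intro ℓ _ F _ hF G _ _ N hN e0 he0 hp0 hd0
  obtain ⟨a, ha, haN, hea, haQ⟩ := hd0
  apply H9.addStmt ℓ F hF G N hN e0 he0
  intro e he hee
  have hp : Pos ℓ e N := pos_mono he.1 (by rw [mulF_comm he.1.1, hee]) hp0
  have hea' : mulF e a = e := by
    have h1 : mulF e e0 = e := by rw [mulF_comm he.1.1, hee]
    rw [← h1, mulF_assoc, hea]
  obtain ⟨b, hb0, hb, hbe⟩ := exists_blk he.2.1 N
  have hNT : N ≤ stabF b := by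
    intro g hg x
    by_cases hx : x ∈ N
    · exact hb.1.1 ⟨x, hx⟩ ⟨g, hg⟩
    · rw [hb0 x hx, hb0]
      intro h
      apply hx
      have h2 := hN.conj_mem _ h g⁻¹
      have h3 : g⁻¹ * (g * x * g⁻¹) * g⁻¹⁻¹ = x := by group
      rwa [h3] at h2
  have hbb : mulF b b = b := by
    have h1 := ext0_mul (fun t : N => b t) (fun t : N => b t)
    rw [hb.1.2, ext0_restr hb0] at h1
    exact h1.symm
  -- `a b = b`
  have hab : mulF a b = b := by
    have ha' : IsIdem (fun t : N => a t) := by
      refine ⟨fun x y => ha.1 x y, ?_⟩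
      rw [mulF_restr haN haN, ha.2]
    have h1 : mulF (fun t : N => b t) (fun t : N => a t) = fun t : N => mulF a b t := by
      rw [mulF_comm hb.1.1, mulF_restr haN hb0]
    have h2 : ∀ x, x ∉ N → mulF a b x = 0 := by
      intro x hx
      have h3 := ext0_mul (fun t : N => a t) (fun t : N => b t)
      rw [ext0_restr haN, ext0_restr hb0] at h3
      rw [← h3, ext0_of_not_mem _ hx]
    rcases hb.2.2 _ ha' with h3 | h3
    · rw [h1] at h3
      rw [← ext0_restr h2, h3, ext0_restr hb0]
    · exfalso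
      rw [h1] at h3
      have h4 : mulF a b = 0 := by
        rw [← ext0_restr h2, h3]
        funext x
        by_cases hx : x ∈ N
        · rw [ext0_of_mem _ hx]
          rfl
        · rw [ext0_of_not_mem _ hx]
          rfl
      apply hbe
      rw [← hea', mulF_assoc, h4, mulF_zero]
  have hfr : FrStmt := H75.fr H94.nch H74.orb H20.nls H20.ibf H20.ibj H20.ibn H20.eig
  obtain ⟨h1, h2, h3, h4⟩ := hfr ℓ F hF G N N hN hN le_rfl e he hp b hb0 hb hbe (stabF b)
    (fun g => Iff.rfl)
  rw [h4]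
  have hNn : (N.subgroupOf (stabF b)).Normal := hN.subgroupOf _
  have hbT : ∀ x, x ∉ stabF b → b x = 0 := fun x hx => hb0 x fun h => hx (hNT h)
  have h5 : YY ℓ (N.subgroupOf (stabF b)) (fun t : stabF b => mulF e b t) = 0 := by
    apply stable_case hccd hcld ℓ F hF (stabF b) (N.subgroupOf (stabF b)) hNn
      (fun t : stabF b => b t) _ _ _ _ h2 h3 _ _
    · intro x y
      exact y.2 x
    · intro x hx
      exact hb0 x hx
    · exact H9.blk_tr (Subgroup.subgroupOfEquivOfLe hNT) hb
    · rw [mulF_restr h1 hbT]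
      funext t
      rw [mulF_assoc, hbb]
    · intro Q hQN hQp hQb
      have h6 := br_sub hQb
      have h7 : Q.map (stabF b).subtype ≤ N := by
        rintro _ ⟨q, hq, rfl⟩
        exact hQN hq
      apply cyc_sub
      apply haQ _ h7 (p_sub hQp)
      intro h8
      apply h6
      have h9 : br (Q.map (stabF b).subtype) (mulF a b) = 0 := by
        rw [br_mulF hF (p_sub hQp) (IsCl.inv ha.1 _) (fun p hp t => hNT (h7 hp) t), h8,
          zero_mulF]
      rwa [hab] at h9
  rw [h5, mul_zero]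

end Pool.Agent.PP.CD2.H94
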